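import Mathlib

set_option autoImplicit false

/-!
# Long extremal square-free permutations: the sequence

`D q` for `q = 2 ^ t * o` with `o` odd is `± (1/2)^t * (1 - (1/2)^(o+1))`, with sign `+` if `o % 4 = 1`
and `-` if `o % 4 = 3`. The word `W m` on `6 ≤ q ≤ 2 ^ m - 6` is antisymmetric about `2 ^ (m-1)`, equals
`D q` for `20 ≤ q < 2 ^ (m-1)` and an explicit gadget for `6 ≤ q ≤ 19`.
-/

namespace Pool.Agent.Y349.SF

/-- the sign of an odd number: `1` if it is `1` modulo `4` and `-1` otherwise -/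
def sg (o : ℕ) : ℚ := if o % 4 = 1 then 1 else -1

/-- the default value -/
def D (q : ℕ) : ℚ :=
  sg (q / 2 ^ padicValNat 2 q) * (1 / 2) ^ (padicValNat 2 q) *
    (1 - (1 / 2) ^ (q / 2 ^ padicValNat 2 q + 1))

lemma D_eq (t o : ℕ) (ho : o % 2 = 1) :
    D (2 ^ t * o) = sg o * (1 / 2) ^ t * (1 - (1 / 2) ^ (o + 1)) := by
  have h : padicValNat 2 (2 ^ t * o) = t := by
    have ho0 : o ≠ 0 := by rintro rfl; simp at ho
    rw [padicValNat.mul (by positivity) ho0, padicValNat.prime_pow,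
      padicValNat.eq_zero_of_not_dvd (by omega)]
    simp
  unfold D
  rw [h, Nat.mul_div_cancel_left _ (by positivity)]

lemma half_pow_pos (t : ℕ) : (0 : ℚ) < (1 / 2) ^ t := by positivity

lemma half_pow_le (t : ℕ) (o : ℕ) (ho : o % 2 = 1) :
    (3 / 4 : ℚ) * (1 / 2) ^ t ≤ (1 / 2) ^ t * (1 - (1 / 2) ^ (o + 1)) := by
  have h1 : (1 / 2 : ℚ) ^ (o + 1) ≤ (1 / 2) ^ 2 :=
    pow_le_pow_of_le_one (by norm_num) (by norm_num) (by omega)
  have h2 := half_pow_pos t
  nlinarith

lemma half_pow_lt (t : ℕ) (o : ℕ) :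
    (1 / 2 : ℚ) ^ t * (1 - (1 / 2) ^ (o + 1)) < (1 / 2) ^ t := by
  have h1 := half_pow_pos (o + 1)
  have h2 := half_pow_pos t
  nlinarith [mul_pos h1 h2]

lemma D_one (t o : ℕ) (ho : o % 4 = 1) :
    (3 / 4 : ℚ) * (1 / 2) ^ t ≤ D (2 ^ t * o) ∧ D (2 ^ t * o) < (1 / 2) ^ t := by
  rw [D_eq t o (by omega), sg, if_pos ho, one_mul]
  exact ⟨half_pow_le t o (by omega), half_pow_lt t o⟩

lemma D_three (t o : ℕ) (ho : o % 4 = 3) :
    D (2 ^ t * o) ≤ -((3 / 4 : ℚ) * (1 / 2) ^ t) ∧ -((1 / 2) ^ t) < D (2 ^ t * o) := by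
  rw [D_eq t o (by omega), sg, if_neg (by omega)]
  have h1 := half_pow_le t o (by omega)
  have h2 := half_pow_lt t o
  constructor <;> linarith

/-- numerators of the gadget -/
def Gz : ℕ → ℤ
  | 6 => 16
  | 7 => -320
  | 8 => -224
  | 9 => 448
  | 10 => 416
  | 11 => -160
  | 12 => -4
  | 13 => 128
  | 14 => -8
  | 15 => -64
  | 16 => -2
  | 17 => 352
  | 18 => 256
  | _ => -1

def E (q : ℕ) : ℚ := if q < 20 then (Gz q : ℚ) / 96 else D q

def W (m q : ℕ) : ℚ :=
  if q < 2 ^ (m - 1) then E q else if q = 2 ^ (m - 1) then 0 else - E (2 ^ m - q)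

lemma two_pow_pred (m : ℕ) (hm : 1 ≤ m) : 2 ^ m = 2 * 2 ^ (m - 1) := by
  obtain ⟨k, rfl⟩ : ∃ k, m = k + 1 := ⟨m - 1, by omega⟩
  simp [pow_succ]; ring

lemma W_anti (m q : ℕ) (hm : 1 ≤ m) (hq : q ≤ 2 ^ m) : W m (2 ^ m - q) = - W m q := by
  have h2 := two_pow_pred m hm
  unfold W
  rcases lt_trichotomy q (2 ^ (m - 1)) with h | h | h
  · rw [if_neg (by omega), if_neg (by omega), if_pos h]
    congr 2
    omega
  · rw [if_neg (by omega), if_pos (by omega), if_neg (by omega), if_pos h]; simp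
  · rw [if_pos (by omega), if_neg (by omega), if_neg (by omega)]; simp

lemma W_low (m q : ℕ) (hq : q < 2 ^ (m - 1)) : W m q = E q := by
  unfold W; rw [if_pos hq]

/-- value in the default region -/
lemma W_default (m t o : ℕ) (hm : 1 ≤ m) (ho : o % 2 = 1) (h20 : 20 ≤ 2 ^ t * o)
    (hM : 2 ^ t * o + 20 ≤ 2 ^ m) (hne : 2 ^ t * o ≠ 2 ^ (m - 1)) :
    (o % 4 = 1 → (3 / 4 : ℚ) * (1 / 2) ^ t ≤ W m (2 ^ t * o) ∧ W m (2 ^ t * o) < (1 / 2) ^ t) ∧
    (o % 4 = 3 → W m (2 ^ t * o) ≤ -((3 / 4 : ℚ) * (1 / 2) ^ t) ∧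
      -((1 / 2) ^ t) < W m (2 ^ t * o)) := by
  have h2 := two_pow_pred m hm
  by_cases h : 2 ^ t * o < 2 ^ (m - 1)
  · rw [W_low m _ h]
    unfold E
    rw [if_neg (by omega)]
    exact ⟨D_one t o, D_three t o⟩
  · -- mirrored
    have htm : t + 2 ≤ m := by
      by_contra hcon
      have h3 : m - 1 ≤ t := by omega
      have h4 : 2 ^ (m - 1) ≤ 2 ^ t := Nat.pow_le_pow_right (by norm_num) h3
      have h5 : o < 2 := by
        by_contra h6
        have : 2 ^ t * 2 ≤ 2 ^ t * o := Nat.mul_le_mul_left _ (by omega)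
        omega
      have h6 : o = 1 := by omega
      subst h6
      rw [mul_one] at *
      by_cases h7 : t = m - 1
      · exact hne (by rw [h7])
      · have : m ≤ t := by omega
        have : 2 ^ m ≤ 2 ^ t := Nat.pow_le_pow_right (by norm_num) this
        omega
    obtain ⟨s, rfl⟩ : ∃ s, m = t + (s + 2) := ⟨m - t - 2, by omega⟩
    have hpow : 2 ^ (t + (s + 2)) = 2 ^ t * (4 * 2 ^ s) := by
      rw [pow_add, pow_add]; ring
    have holt : o < 4 * 2 ^ s := by
      by_contra hcon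
      have : 2 ^ t * (4 * 2 ^ s) ≤ 2 ^ t * o := Nat.mul_le_mul_left _ (by omega)
      omega
    have hsub : 2 ^ (t + (s + 2)) - 2 ^ t * o = 2 ^ t * (4 * 2 ^ s - o) := by
      rw [hpow, Nat.mul_sub]
    have hW : W (t + (s + 2)) (2 ^ t * o) = - D (2 ^ t * (4 * 2 ^ s - o)) := by
      unfold W
      rw [if_neg h, if_neg hne]
      unfold E
      rw [if_neg (by omega), hsub]
    rw [hW]
    constructor
    · intro h1
      have := D_three t (4 * 2 ^ s - o) (by omega)
      constructor <;> linarith [this.1, this.2]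
    · intro h3
      have := D_one t (4 * 2 ^ s - o) (by omega)
      constructor <;> linarith [this.1, this.2]

lemma exists_odd (q : ℕ) (hq : q ≠ 0) : ∃ t o, o % 2 = 1 ∧ q = 2 ^ t * o := by
  obtain ⟨k, m, hm, h⟩ := Nat.exists_eq_two_pow_mul_odd hq
  exact ⟨k, m, Nat.odd_iff.1 hm, h⟩

/-- deep elements are small -/
lemma W_small (m j q : ℕ) (hm : 1 ≤ m) (hd : 2 ^ j ∣ q) (h20 : 20 ≤ q) (hM : q + 20 ≤ 2 ^ m) :
    |W m q| < (1 / 2) ^ j := by
  by_cases hne : q = 2 ^ (m - 1)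
  · rw [hne]
    unfold W
    simp
  obtain ⟨t, o, ho, rfl⟩ := exists_odd q (by omega)
  have hjt : j ≤ t := by
    by_contra hcon
    have h1 : 2 ^ (t + 1) ∣ 2 ^ t * o := dvd_trans (pow_dvd_pow 2 (by omega)) hd
    rw [pow_succ] at h1
    have := Nat.dvd_of_mul_dvd_mul_left (by positivity) h1
    omega
  have h2 : (1 / 2 : ℚ) ^ t ≤ (1 / 2) ^ j := pow_le_pow_of_le_one (by norm_num) (by norm_num) hjt
  obtain ⟨h3, h4⟩ := W_default m t o hm ho h20 hM hne
  have h5 := half_pow_pos t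
  rw [abs_lt]
  have : o % 4 = 1 ∨ o % 4 = 3 := by omega
  rcases this with h | h
  · have := h3 h; constructor <;> linarith [this.1, this.2]
  · have := h4 h; constructor <;> linarith [this.1, this.2]

/-- main comparison at level `j` in the default region -/
lemma W_level (m j k : ℕ) (hm : 1 ≤ m) (h20 : 20 ≤ 2 ^ j * k)
    (hM : 2 ^ j * (k + 1) + 20 ≤ 2 ^ m) :
    W m (2 ^ j * k) < W m (2 ^ j * (k + 1)) ↔ (k % 4 = 0 ∨ k % 4 = 3) := by
  have h2 := two_pow_pred m hm
  have hk0 : k ≠ 0 := by rintro rfl; simp at h20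
  have e1 : 2 ^ j * (k + 1) = 2 ^ j * k + 2 ^ j := by ring
  have hj : (1 / 2 : ℚ) ^ (j + 1) = (1 / 2) ^ j * (1 / 2) := by rw [pow_succ]
  have hjp := half_pow_pos j
  have hp2 : 0 < 2 ^ j := by positivity
  rcases Nat.even_or_odd k with hk | hk
  · -- k even, k + 1 odd
    obtain ⟨r, hr⟩ := hk
    have hkk : (k + 1) % 2 = 1 := by omega
    have hne : 2 ^ j * (k + 1) ≠ 2 ^ (m - 1) := by
      intro he
      have h5 : (k + 1) ∣ 2 ^ (m - 1) := ⟨2 ^ j, by rw [← he]; ring⟩
      obtain ⟨i, -, hi⟩ := (Nat.dvd_prime_pow Nat.prime_two).1 h5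
      rcases i with _ | i
      · simp at hi; omega
      · rw [pow_succ] at hi; omega
    have hd := W_default m j (k + 1) hm hkk (by omega) (by omega) hne
    have hs := W_small m (j + 1) (2 ^ j * k) hm
      (by rw [pow_succ]; exact Nat.mul_dvd_mul_left _ ⟨r, by omega⟩) h20 (by omega)
    rw [abs_lt, hj] at hs
    have hcase : (k + 1) % 4 = 1 ∨ (k + 1) % 4 = 3 := by omega
    rcases hcase with h | h
    · have := hd.1 h
      constructor
      · intro _; left; omega
      · intro _; linarith [this.1, hs.2]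
    · have := hd.2 h
      constructor
      · intro h6; exfalso; linarith [this.1, hs.1]
      · intro h6; exfalso; omega
  · -- k odd
    have hkk : k % 2 = 1 := Nat.odd_iff.1 hk
    have hne : 2 ^ j * k ≠ 2 ^ (m - 1) := by
      intro he
      have h5 : k ∣ 2 ^ (m - 1) := ⟨2 ^ j, by rw [← he]; ring⟩
      obtain ⟨i, -, hi⟩ := (Nat.dvd_prime_pow Nat.prime_two).1 h5
      rcases i with _ | i
      · simp at hi
        subst hi
        omega
      · rw [pow_succ] at hi; omega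
    have hd := W_default m j k hm hkk h20 (by omega) hne
    have hs := W_small m (j + 1) (2 ^ j * (k + 1)) hm
      (by rw [pow_succ]; exact Nat.mul_dvd_mul_left _ (by omega)) (by omega) hM
    rw [abs_lt, hj] at hs
    have hcase : k % 4 = 1 ∨ k % 4 = 3 := by omega
    rcases hcase with h | h
    · have := hd.1 h
      constructor
      · intro h6; exfalso; linarith [this.1, hs.2]
      · intro h6; exfalso; omega
    · have := hd.2 h
      constructor
      · intro _; right; omega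
      · intro _; linarith [this.1, hs.1]

end Pool.Agent.Y349.SF
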