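import Mathlib
import Pool.Agent.Y349.SqBasic

set_option autoImplicit false

namespace Pool.Agent.Y349.SF

/-- two adjacent blocks of length `l` starting at `q` are order-isomorphic -/
def Sq (f : ℕ → ℚ) (q l : ℕ) : Prop :=
  ∀ a < l, ∀ b < l, (f (q + a) < f (q + b) ↔ f (q + l + a) < f (q + l + b))

/-! explicit values -/

lemma E_gadget (q : ℕ) (h : q < 20) : E q = (Gz q : ℚ) / 96 := by
  unfold E; rw [if_pos h]

lemma E_def (q : ℕ) (h : 20 ≤ q) : E q = D q := by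
  unfold E; rw [if_neg (by omega)]

/-- sorted list of the positions `6, …, 37` -/
def srt : List ℕ := [7, 8, 11, 35, 31, 27, 23, 15, 30, 22, 28, 24, 14, 12, 16, 19, 32, 6, 20, 36,
  26, 34, 21, 25, 29, 33, 37, 13, 18, 17, 10, 9]

lemma D20 : D 20 = 63 / 256 := by
  rw [show (20 : ℕ) = 2 ^ 2 * 5 from rfl, D_eq 2 5 rfl]; norm_num [sg]
lemma D21 : D 21 = 1 - (1 / 2) ^ 22 := by
  rw [show (21 : ℕ) = 2 ^ 0 * 21 from rfl, D_eq 0 21 rfl]; norm_num [sg]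
lemma D22 : D 22 = -(1 / 2) * (1 - (1 / 2) ^ 12) := by
  rw [show (22 : ℕ) = 2 ^ 1 * 11 from rfl, D_eq 1 11 rfl]; norm_num [sg]
lemma D23 : D 23 = -(1 - (1 / 2) ^ 24) := by
  rw [show (23 : ℕ) = 2 ^ 0 * 23 from rfl, D_eq 0 23 rfl]; norm_num [sg]
lemma D24 : D 24 = -(1 / 8) * (1 - (1 / 2) ^ 4) := by
  rw [show (24 : ℕ) = 2 ^ 3 * 3 from rfl, D_eq 3 3 rfl]; norm_num [sg]
lemma D25 : D 25 = 1 - (1 / 2) ^ 26 := by
  rw [show (25 : ℕ) = 2 ^ 0 * 25 from rfl, D_eq 0 25 rfl]; norm_num [sg]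
lemma D26 : D 26 = (1 / 2) * (1 - (1 / 2) ^ 14) := by
  rw [show (26 : ℕ) = 2 ^ 1 * 13 from rfl, D_eq 1 13 rfl]; norm_num [sg]
lemma D27 : D 27 = -(1 - (1 / 2) ^ 28) := by
  rw [show (27 : ℕ) = 2 ^ 0 * 27 from rfl, D_eq 0 27 rfl]; norm_num [sg]
lemma D28 : D 28 = -(1 / 4) * (1 - (1 / 2) ^ 8) := by
  rw [show (28 : ℕ) = 2 ^ 2 * 7 from rfl, D_eq 2 7 rfl]; norm_num [sg]
lemma D29 : D 29 = 1 - (1 / 2) ^ 30 := by
  rw [show (29 : ℕ) = 2 ^ 0 * 29 from rfl, D_eq 0 29 rfl]; norm_num [sg]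
lemma D30 : D 30 = -(1 / 2) * (1 - (1 / 2) ^ 16) := by
  rw [show (30 : ℕ) = 2 ^ 1 * 15 from rfl, D_eq 1 15 rfl]; norm_num [sg]
lemma D31 : D 31 = -(1 - (1 / 2) ^ 32) := by
  rw [show (31 : ℕ) = 2 ^ 0 * 31 from rfl, D_eq 0 31 rfl]; norm_num [sg]
lemma D32 : D 32 = (1 / 32) * (1 - (1 / 2) ^ 2) := by
  rw [show (32 : ℕ) = 2 ^ 5 * 1 from rfl, D_eq 5 1 rfl]; norm_num [sg]
lemma D33 : D 33 = 1 - (1 / 2) ^ 34 := by
  rw [show (33 : ℕ) = 2 ^ 0 * 33 from rfl, D_eq 0 33 rfl]; norm_num [sg]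
lemma D34 : D 34 = (1 / 2) * (1 - (1 / 2) ^ 18) := by
  rw [show (34 : ℕ) = 2 ^ 1 * 17 from rfl, D_eq 1 17 rfl]; norm_num [sg]
lemma D35 : D 35 = -(1 - (1 / 2) ^ 36) := by
  rw [show (35 : ℕ) = 2 ^ 0 * 35 from rfl, D_eq 0 35 rfl]; norm_num [sg]
lemma D36 : D 36 = (1 / 4) * (1 - (1 / 2) ^ 10) := by
  rw [show (36 : ℕ) = 2 ^ 2 * 9 from rfl, D_eq 2 9 rfl]; norm_num [sg]
lemma D37 : D 37 = 1 - (1 / 2) ^ 38 := by
  rw [show (37 : ℕ) = 2 ^ 0 * 37 from rfl, D_eq 0 37 rfl]; norm_num [sg]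

/-- the values at `6, …, 37`, sorted, as a strictly increasing list -/
def vals : List ℚ := srt.map E

lemma vals_eq : vals = [-320/96, -224/96, -160/96, -(1 - (1 / 2) ^ 36), -(1 - (1 / 2) ^ 32),
    -(1 - (1 / 2) ^ 28), -(1 - (1 / 2) ^ 24), -64/96, -(1 / 2) * (1 - (1 / 2) ^ 16),
    -(1 / 2) * (1 - (1 / 2) ^ 12), -(1 / 4) * (1 - (1 / 2) ^ 8), -(1 / 8) * (1 - (1 / 2) ^ 4),
    -8/96, -4/96, -2/96, -1/96, (1 / 32) * (1 - (1 / 2) ^ 2), 16/96, 63/256,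
    (1 / 4) * (1 - (1 / 2) ^ 10), (1 / 2) * (1 - (1 / 2) ^ 14), (1 / 2) * (1 - (1 / 2) ^ 18),
    1 - (1 / 2) ^ 22, 1 - (1 / 2) ^ 26, 1 - (1 / 2) ^ 30, 1 - (1 / 2) ^ 34, 1 - (1 / 2) ^ 38,
    128/96, 256/96, 352/96, 416/96, 448/96] := by
  unfold vals srt
  simp only [List.map_cons, List.map_nil]
  rw [E_gadget 7 (by norm_num), E_gadget 8 (by norm_num), E_gadget 11 (by norm_num),
    E_def 35 (by norm_num), E_def 31 (by norm_num), E_def 27 (by norm_num), E_def 23 (by norm_num),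
    E_gadget 15 (by norm_num), E_def 30 (by norm_num), E_def 22 (by norm_num),
    E_def 28 (by norm_num), E_def 24 (by norm_num), E_gadget 14 (by norm_num),
    E_gadget 12 (by norm_num), E_gadget 16 (by norm_num), E_gadget 19 (by norm_num),
    E_def 32 (by norm_num), E_gadget 6 (by norm_num), E_def 20 (by norm_num),
    E_def 36 (by norm_num), E_def 26 (by norm_num), E_def 34 (by norm_num), E_def 21 (by norm_num),
    E_def 25 (by norm_num), E_def 29 (by norm_num), E_def 33 (by norm_num), E_def 37 (by norm_num),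
    E_gadget 13 (by norm_num), E_gadget 18 (by norm_num), E_gadget 17 (by norm_num),
    E_gadget 10 (by norm_num), E_gadget 9 (by norm_num),
    D20, D21, D22, D23, D24, D25, D26, D27, D28, D29, D30, D31, D32, D33, D34, D35, D36, D37]
  simp only [Gz]
  norm_num

lemma vals_sorted : vals.Pairwise (· < ·) := by
  rw [vals_eq, ← List.isChain_iff_pairwise]
  norm_num

/-- rank of a position among `6, …, 37` -/
def rk (q : ℕ) : ℕ := srt.idxOf q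

lemma E_rk (q : ℕ) (h6 : 6 ≤ q) (h37 : q ≤ 37) : rk q < 32 ∧ E q = vals.getD (rk q) 0 := by
  have h1 : q ∈ srt := by
    have : ∀ q ∈ Finset.Icc 6 37, q ∈ srt := by decide
    exact this q (Finset.mem_Icc.2 ⟨h6, h37⟩)
  have h2 : rk q < srt.length := List.idxOf_lt_length_iff.2 h1
  refine ⟨h2, ?_⟩
  unfold vals rk
  rw [List.getD_eq_getElem _ _ (by rw [List.length_map]; exact h2), List.getElem_map]
  congr 1
  exact (List.getElem_idxOf h2).symm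

lemma E_lt (q q' : ℕ) (h6 : 6 ≤ q) (h37 : q ≤ 37) (h6' : 6 ≤ q') (h37' : q' ≤ 37) :
    E q < E q' ↔ rk q < rk q' := by
  obtain ⟨h1, h2⟩ := E_rk q h6 h37
  obtain ⟨h1', h2'⟩ := E_rk q' h6' h37'
  have hl : vals.length = 32 := by unfold vals srt; simp
  rw [h2, h2', List.getD_eq_getElem _ _ (by rw [hl]; exact h1),
    List.getD_eq_getElem _ _ (by rw [hl]; exact h1')]
  have hs := List.pairwise_iff_getElem.1 vals_sorted
  constructor
  · intro h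
    by_contra hcon
    rcases Nat.lt_or_ge (rk q') (rk q) with h3 | h3
    · exact lt_asymm h (hs _ _ _ _ h3)
    · have h4 : rk q = rk q' := by omega
      simp only [h4] at h
      exact lt_irrefl _ h
  · intro h
    exact hs _ _ _ _ h

/-- no short squares near the left end -/
lemma small_check : ∀ q ∈ Finset.Icc 6 19, ∀ k ∈ Finset.Icc 1 4, q + 4 * k ≤ 22 →
    ∃ a ∈ Finset.range (4 * k), ∃ b ∈ Finset.range (4 * k),
      ¬ (rk (q + a) < rk (q + b) ↔ rk (q + 4 * k + a) < rk (q + 4 * k + b)) := by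
  decide

end Pool.Agent.Y349.SF
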