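import Mathlib
import Pool.Agent.Y349.SqMain

set_option autoImplicit false

namespace Pool.Agent.Y349.SF

lemma pow_ge (m : ℕ) (hm : 7 ≤ m) : 64 ≤ 2 ^ (m - 1) := by
  calc 64 = 2 ^ 6 := by norm_num
    _ ≤ 2 ^ (m - 1) := Nat.pow_le_pow_right (by norm_num) (by omega)

/-- shape near the left end -/
lemma shape_left (m q : ℕ) (hm : 7 ≤ m) (h6 : 6 ≤ q) (h19 : q ≤ 19) :
    (W m q < W m (q + 1) ↔ (q % 4 = 0 ∨ q % 4 = 3)) := by
  have h64 := pow_ge m hm
  rw [W_low m q (by omega), W_low m (q + 1) (by omega), E_lt q (q + 1) h6 (by omega) (by omega)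
    (by omega)]
  have : ∀ q ∈ Finset.Icc 6 19, (rk q < rk (q + 1) ↔ (q % 4 = 0 ∨ q % 4 = 3)) := by decide
  exact this q (Finset.mem_Icc.2 ⟨h6, h19⟩)

lemma W_sym (m q : ℕ) (hm : 7 ≤ m) (hq : q ≤ 2 ^ m) : W m q = - W m (2 ^ m - q) := by
  rw [W_anti m q (by omega) hq]; simp

lemma shape (m q : ℕ) (hm : 7 ≤ m) (h6 : 6 ≤ q) (hM : q + 7 ≤ 2 ^ m) :
    (W m q < W m (q + 1) ↔ (q % 4 = 0 ∨ q % 4 = 3)) := by
  by_cases h19 : q ≤ 19
  · exact shape_left m q hm h6 h19
  by_cases h20 : q + 1 + 20 ≤ 2 ^ m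
  · have := W_level m 0 q (by omega) (by simp; omega) (by simp; omega)
    simpa using this
  · have h4 : 4 ∣ 2 ^ m := by
      have : 2 ^ 2 ∣ 2 ^ m := pow_dvd_pow 2 (by omega)
      simpa using this
    have h64 := pow_ge m hm
    have h2 := two_pow_pred m (by omega)
    rw [W_sym m q hm (by omega), W_sym m (q + 1) hm (by omega)]
    have e : 2 ^ m - q = (2 ^ m - (q + 1)) + 1 := by omega
    rw [e, neg_lt_neg_iff]
    have h5 := shape_left m (2 ^ m - (q + 1)) hm (by omega) (by omega)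
    rw [h5]
    obtain ⟨c, hc⟩ := h4
    omega

/-- mirror image of a square -/
lemma Sq_mirror (f : ℕ → ℚ) (M q l : ℕ) (hf : ∀ i ≤ M, f (M - i) = - f i)
    (hM : q + 2 * l ≤ M + 1) (hs : Sq f q l) : Sq f (M + 1 - q - 2 * l) l := by
  intro a ha b hb
  have h1 := hs (l - 1 - b) (by omega) (l - 1 - a) (by omega)
  have key : ∀ c < l, f (M + 1 - q - 2 * l + c) = - f (q + l + (l - 1 - c)) ∧
      f (M + 1 - q - 2 * l + l + c) = - f (q + (l - 1 - c)) := by
    intro c hc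
    constructor
    · rw [← hf _ (by omega)]; congr 1; omega
    · rw [← hf _ (by omega)]; congr 1; omega
  rw [(key a ha).1, (key b hb).1, (key a ha).2, (key b hb).2, neg_lt_neg_iff, neg_lt_neg_iff]
  exact h1.symm

/-- squares of length not divisible by four -/
lemma no_sq_mod (m q l : ℕ) (hm : 7 ≤ m) (h6 : 6 ≤ q) (hl : 2 ≤ l) (hl4 : l % 4 ≠ 0)
    (hM : q + 2 * l + 5 ≤ 2 ^ m) (hs : Sq (W m) q l) : False := by
  have h1 := hs 0 (by omega) 1 (by omega)
  have s1 := shape m q hm h6 (by omega)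
  have s2 := shape m (q + l) hm (by omega) (by omega)
  simp only [Nat.add_zero] at h1
  rw [s1, s2] at h1
  by_cases h2 : l = 2
  · omega
  have h3 := hs 1 (by omega) 2 (by omega)
  have s3 := shape m (q + 1) hm (by omega) (by omega)
  have s4 := shape m (q + l + 1) hm (by omega) (by omega)
  rw [show q + 2 = q + 1 + 1 from rfl, show q + l + 2 = q + l + 1 + 1 from rfl, s3, s4] at h3
  omega

/-- squares starting near the left end -/
lemma no_sq_left (m q l : ℕ) (hm : 7 ≤ m) (h6 : 6 ≤ q) (h19 : q ≤ 19) (hl : 2 ≤ l)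
    (hM : q + 2 * l + 5 ≤ 2 ^ m) : ¬ Sq (W m) q l := by
  intro hs
  by_cases hl4 : l % 4 = 0
  swap
  · exact no_sq_mod m q l hm h6 hl hl4 hM hs
  have h64 := pow_ge m hm
  have h2 := two_pow_pred m (by omega)
  by_cases h22 : q + l ≤ 22
  · obtain ⟨k, rfl⟩ : ∃ k, l = 4 * k := ⟨l / 4, by omega⟩
    obtain ⟨a, ha, b, hb, hne⟩ := small_check q (Finset.mem_Icc.2 ⟨h6, h19⟩) k
      (Finset.mem_Icc.2 ⟨by omega, by omega⟩) h22
    rw [Finset.mem_range] at ha hb
    apply hne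
    have h3 := hs a ha b hb
    rw [W_low m _ (by omega), W_low m _ (by omega), W_low m _ (by omega), W_low m _ (by omega),
      E_lt _ _ (by omega) (by omega) (by omega) (by omega),
      E_lt _ _ (by omega) (by omega) (by omega) (by omega)] at h3
    exact h3
  · have h3 := hs (19 - q) (by omega) (22 - q) (by omega)
    rw [show q + (19 - q) = 19 by omega, show q + (22 - q) = 22 by omega,
      show q + l + (19 - q) = 19 + l by omega, show q + l + (22 - q) = 22 + l by omega,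
      W_low m 19 (by omega), W_low m 22 (by omega),
      E_lt _ _ (by omega) (by omega) (by omega) (by omega)] at h3
    have h4 : ¬ (rk 19 < rk 22) := by decide
    apply h4
    rw [h3]
    have h5 := (W_default m 0 (19 + l) (by omega) (by omega) (by omega) (by omega)
      (by
        intro he
        have : 2 ∣ 2 ^ (m - 1) := dvd_pow_self 2 (by omega)
        omega)).2 (by omega)
    have h7 := W_small m 1 (22 + l) (by omega) (by omega) (by omega) (by omega)
    rw [abs_lt] at h7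
    simp only [pow_zero, one_mul, pow_one, mul_one] at h5 h7
    linarith [h5.1, h7.1]

/-- squares inside the default region -/
lemma no_sq_mid (m q l : ℕ) (hm : 7 ≤ m) (h20 : 20 ≤ q) (hl : 2 ≤ l)
    (hM : q + 2 * l + 19 ≤ 2 ^ m) : ¬ Sq (W m) q l := by
  intro hs
  by_cases hl4 : l % 4 = 0
  swap
  · exact no_sq_mod m q l hm (by omega) hl hl4 (by omega) hs
  obtain ⟨t, r, hr, hlr⟩ := exists_odd l (by omega)
  obtain ⟨j, rfl⟩ : ∃ j, t = j + 1 := by
    rcases t with _ | j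
    · simp at hlr; omega
    · exact ⟨j, rfl⟩
  have hpj : 0 < 2 ^ j := by positivity
  have hr1 : 1 ≤ r := by omega
  have hl2 : l = 2 ^ j * (2 * r) := by rw [hlr, pow_succ]; ring
  have hl3 : 2 * 2 ^ j ≤ l := by rw [hl2]; nlinarith
  -- consecutive multiples of `2 ^ j` in the first half
  obtain ⟨k, hk1, hk2⟩ : ∃ k, q ≤ 2 ^ j * k ∧ 2 ^ j * k < q + 2 ^ j := by
    refine ⟨(q + 2 ^ j - 1) / 2 ^ j, ?_, ?_⟩
    · have := Nat.div_add_mod (q + 2 ^ j - 1) (2 ^ j)
      have h5 := Nat.mod_lt (q + 2 ^ j - 1) hpj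
      omega
    · have := Nat.div_mul_le_self (q + 2 ^ j - 1) (2 ^ j)
      rw [mul_comm] at this
      omega
  have e1 : 2 ^ j * (k + 1) = 2 ^ j * k + 2 ^ j := by ring
  have e2 : 2 ^ j * (k + 2 * r) = 2 ^ j * k + l := by rw [hl2]; ring
  have e3 : 2 ^ j * (k + 2 * r + 1) = 2 ^ j * k + l + 2 ^ j := by rw [hl2]; ring
  have h1 := hs (2 ^ j * k - q) (by omega) (2 ^ j * (k + 1) - q) (by omega)
  rw [show q + (2 ^ j * k - q) = 2 ^ j * k by omega,
    show q + (2 ^ j * (k + 1) - q) = 2 ^ j * (k + 1) by omega,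
    show q + l + (2 ^ j * k - q) = 2 ^ j * (k + 2 * r) by omega,
    show q + l + (2 ^ j * (k + 1) - q) = 2 ^ j * (k + 2 * r + 1) by omega,
    W_level m j k (by omega) (by omega) (by omega),
    W_level m j (k + 2 * r) (by omega) (by omega) (by omega)] at h1
  omega

/-- the word is square-free -/
theorem no_sq (m q l : ℕ) (hm : 7 ≤ m) (h6 : 6 ≤ q) (hl : 2 ≤ l)
    (hM : q + 2 * l + 5 ≤ 2 ^ m) : ¬ Sq (W m) q l := by
  by_cases h19 : q ≤ 19
  · exact no_sq_left m q l hm h6 h19 hl hM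
  by_cases hend : q + 2 * l + 19 ≤ 2 ^ m
  · exact no_sq_mid m q l hm (by omega) hl hend
  · intro hs
    have := Sq_mirror (W m) (2 ^ m) q l (fun i hi => W_anti m i (by omega) hi) (by omega) hs
    exact no_sq_left m _ l hm (by omega) (by omega) hl (by omega) this

/-! injectivity -/

lemma absD_lt (t o : ℕ) (ho : o % 2 = 1) :
    (3 / 4 : ℚ) * (1 / 2) ^ t ≤ |D (2 ^ t * o)| ∧ |D (2 ^ t * o)| < (1 / 2) ^ t ∧
    |D (2 ^ t * o)| = (1 / 2) ^ t * (1 - (1 / 2) ^ (o + 1)) := by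
  have h1 := half_pow_le t o ho
  have h2 := half_pow_lt t o
  have h0 := half_pow_pos t
  have h3 : |D (2 ^ t * o)| = (1 / 2) ^ t * (1 - (1 / 2) ^ (o + 1)) := by
    rw [D_eq t o ho, sg]
    split_ifs
    · rw [one_mul, abs_of_nonneg (by linarith)]
    · rw [neg_one_mul, neg_mul, abs_neg, abs_of_nonneg (by linarith)]
  rw [h3]
  exact ⟨h1, h2, rfl⟩

lemma absD_inj (q q' : ℕ) (h : q ≠ 0) (h' : q' ≠ 0) (he : |D q| = |D q'|) : q = q' := by
  obtain ⟨t, o, ho, rfl⟩ := exists_odd q h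
  obtain ⟨t', o', ho', rfl⟩ := exists_odd q' h'
  obtain ⟨h1, h2, h3⟩ := absD_lt t o ho
  obtain ⟨h1', h2', h3'⟩ := absD_lt t' o' ho'
  have h0 := half_pow_pos t
  have h0' := half_pow_pos t'
  have ht : t = t' := by
    rcases lt_trichotomy t t' with hlt | heq | hgt
    · exfalso
      have : (1 / 2 : ℚ) ^ t' ≤ (1 / 2) ^ (t + 1) :=
        pow_le_pow_of_le_one (by norm_num) (by norm_num) hlt
      rw [pow_succ] at this
      linarith
    · exact heq
    · exfalso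
      have : (1 / 2 : ℚ) ^ t ≤ (1 / 2) ^ (t' + 1) :=
        pow_le_pow_of_le_one (by norm_num) (by norm_num) hgt
      rw [pow_succ] at this
      linarith
  subst ht
  rw [h3, h3'] at he
  have h5 := mul_left_cancel₀ h0.ne' he
  have h6 : (1 / 2 : ℚ) ^ (o + 1) = (1 / 2) ^ (o' + 1) := by linarith
  have h7 := pow_right_injective₀ (a := (1 / 2 : ℚ)) (by norm_num) (by norm_num) h6
  congr 1
  omega

/-- the gadget values are never values of `D` up to sign -/
lemma gadget_ne (q q' : ℕ) (h6 : 6 ≤ q) (h19 : q ≤ 19) (h' : q' ≠ 0) :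
    |(Gz q : ℚ) / 96| ≠ |D q'| := by
  obtain ⟨t, o, ho, rfl⟩ := exists_odd q' h'
  rw [(absD_lt t o ho).2.2]
  intro he
  have h3 : (|Gz q| : ℚ) * 2 ^ (t + o + 1) = 96 * (2 ^ (o + 1) - 1) := by
    rw [abs_div] at he
    have h96 : |(96 : ℚ)| = 96 := by norm_num
    rw [h96, div_eq_iff (by norm_num)] at he
    rw [he]
    have e1 : (1 / 2 : ℚ) ^ t * 2 ^ t = 1 := by rw [← mul_pow]; norm_num
    have e2 : (1 / 2 : ℚ) ^ (o + 1) * 2 ^ (o + 1) = 1 := by rw [← mul_pow]; norm_num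
    have e3 : (2 : ℚ) ^ (t + o + 1) = 2 ^ t * 2 ^ (o + 1) := by rw [← pow_add]; congr 1
    rw [e3]
    calc (1 / 2 : ℚ) ^ t * (1 - (1 / 2) ^ (o + 1)) * 96 * (2 ^ t * 2 ^ (o + 1))
        = 96 * ((1 / 2 : ℚ) ^ t * 2 ^ t) * (2 ^ (o + 1) - (1 / 2 : ℚ) ^ (o + 1) * 2 ^ (o + 1)) := by
          ring
      _ = 96 * (2 ^ (o + 1) - 1) := by rw [e1, e2]; ring
  have h4 : |Gz q| * 2 ^ (t + o + 1) = 96 * (2 ^ (o + 1) - 1) := by exact_mod_cast h3
  have h5 : (3 : ℤ) ∣ |Gz q| * 2 ^ (t + o + 1) := by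
    rw [h4]; exact Dvd.dvd.mul_right (by norm_num) _
  have h6' : (3 : ℤ) ∣ |Gz q| := by
    have hp : Prime (3 : ℤ) := Int.prime_three
    rcases hp.dvd_or_dvd h5 with h | h
    · exact h
    · exfalso
      have := hp.dvd_of_dvd_pow h
      omega
  have hdec : ∀ q ∈ Finset.Icc 6 19, ¬ ((3 : ℤ) ∣ |Gz q|) := by decide
  exact hdec q (Finset.mem_Icc.2 ⟨h6, h19⟩) h6'

lemma absE_inj (q q' : ℕ) (h : 6 ≤ q) (h' : 6 ≤ q') (he : |E q| = |E q'|) : q = q' := by
  by_cases h1 : q < 20 <;> by_cases h2 : q' < 20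
  · rw [E_gadget q h1, E_gadget q' h2, abs_div, abs_div, div_left_inj' (by norm_num)] at he
    have h3 : |Gz q| = |Gz q'| := by exact_mod_cast he
    have hdec : ∀ q ∈ Finset.Icc 6 19, ∀ q' ∈ Finset.Icc 6 19, |Gz q| = |Gz q'| → q = q' := by
      decide
    exact hdec q (Finset.mem_Icc.2 ⟨h, by omega⟩) q' (Finset.mem_Icc.2 ⟨h', by omega⟩) h3
  · rw [E_gadget q h1, E_def q' (by omega)] at he
    exact absurd he (gadget_ne q q' h (by omega) (by omega))
  · rw [E_gadget q' h2, E_def q (by omega)] at he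
    exact absurd he.symm (gadget_ne q' q h' (by omega) (by omega))
  · rw [E_def q (by omega), E_def q' (by omega)] at he
    exact absD_inj q q' (by omega) (by omega) he

lemma E_ne_zero (q : ℕ) (h : 6 ≤ q) : E q ≠ 0 := by
  by_cases h1 : q < 20
  · rw [E_gadget q h1]
    have hdec : ∀ q ∈ Finset.Icc 6 19, Gz q ≠ 0 := by decide
    have := hdec q (Finset.mem_Icc.2 ⟨h, by omega⟩)
    have h2 : (Gz q : ℚ) ≠ 0 := by exact_mod_cast this
    exact div_ne_zero h2 (by norm_num)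
  · rw [E_def q (by omega)]
    obtain ⟨t, o, ho, rfl⟩ := exists_odd q (by omega)
    have h3 := (absD_lt t o ho).1
    have h0 := half_pow_pos t
    intro h4
    rw [h4, abs_zero] at h3
    linarith

lemma W_inj (m q q' : ℕ) (hm : 7 ≤ m) (h : 6 ≤ q) (h' : 6 ≤ q') (hM : q + 6 ≤ 2 ^ m)
    (hM' : q' + 6 ≤ 2 ^ m) (he : W m q = W m q') : q = q' := by
  have h2 := two_pow_pred m (by omega)
  have h64 := pow_ge m hm
  -- a representation of `W`
  have rep : ∀ q, 6 ≤ q → q + 6 ≤ 2 ^ m → (q < 2 ^ (m - 1) ∧ W m q = E q) ∨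
      (q = 2 ^ (m - 1) ∧ W m q = 0) ∨ (2 ^ (m - 1) < q ∧ W m q = - E (2 ^ m - q)) := by
    intro q h6 hM
    unfold W
    rcases lt_trichotomy q (2 ^ (m - 1)) with h | h | h
    · left; exact ⟨h, by rw [if_pos h]⟩
    · right; left; exact ⟨h, by rw [if_neg (by omega), if_pos h]⟩
    · right; right; exact ⟨h, by rw [if_neg (by omega), if_neg (by omega)]⟩
  rcases rep q h hM with ⟨r1, r2⟩ | ⟨r1, r2⟩ | ⟨r1, r2⟩ <;>
  rcases rep q' h' hM' with ⟨s1, s2⟩ | ⟨s1, s2⟩ | ⟨s1, s2⟩ <;> rw [r2, s2] at he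
  · exact absE_inj q q' h h' (by rw [he])
  · exact absurd he (E_ne_zero q h)
  · have h5 := absE_inj q (2 ^ m - q') h (by omega) (by rw [he, abs_neg])
    exfalso
    rw [← h5] at he
    have := E_ne_zero q h
    apply this
    linarith
  · exact absurd he.symm (E_ne_zero q' h')
  · omega
  · exact absurd (by linarith : E (2 ^ m - q') = 0) (E_ne_zero _ (by omega))
  · have h5 := absE_inj (2 ^ m - q) q' (by omega) h' (by rw [← he, abs_neg])
    exfalso
    rw [h5] at he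
    have := E_ne_zero q' h'
    apply this
    linarith
  · exact absurd (by linarith : E (2 ^ m - q) = 0) (E_ne_zero _ (by omega))
  · have h5 := absE_inj (2 ^ m - q) (2 ^ m - q') (by omega) (by omega)
      (by rw [neg_inj.1 he])
    omega

end Pool.Agent.Y349.SF
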