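import Mathlib
import Pool.Agent.Y349.SqWord

set_option autoImplicit false

namespace Pool.Agent.Y349.SF

/-- the word, indexed from `0` -/
def fw (m i : ℕ) : ℚ := W m (i + 6)

/-- the sequence `f` with `x` inserted after the first `p` entries -/
def ins (f : ℕ → ℚ) (p : ℕ) (x : ℚ) (k : ℕ) : ℚ :=
  if k < p then f k else if k = p then x else f (k - 1)

lemma fw_val (m i : ℕ) (hm : 7 ≤ m) (hi : i < 14) : fw m i = (Gz (i + 6) : ℚ) / 96 := by
  have h64 := pow_ge m hm
  unfold fw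
  rw [W_low m _ (by omega), E_gadget _ (by omega)]

lemma fw14 (m : ℕ) (hm : 7 ≤ m) : fw m 14 = 63 / 256 := by
  have h64 := pow_ge m hm
  unfold fw
  rw [W_low m _ (by omega), E_def _ (by omega), D20]

lemma ins_lt (f : ℕ → ℚ) (p : ℕ) (x : ℚ) (k : ℕ) (h : k < p) : ins f p x k = f k := by
  unfold ins; rw [if_pos h]

lemma ins_eq (f : ℕ → ℚ) (p : ℕ) (x : ℚ) : ins f p x p = x := by
  unfold ins; rw [if_neg (by omega), if_pos rfl]

lemma ins_gt (f : ℕ → ℚ) (p : ℕ) (x : ℚ) (k : ℕ) (h : p < k) : ins f p x k = f (k - 1) := by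
  unfold ins; rw [if_neg (by omega), if_neg (by omega)]

/-- squares of half-length two -/
lemma Sq_two (f : ℕ → ℚ) (q : ℕ) (h1 : f q ≠ f (q + 1)) (h2 : f (q + 2) ≠ f (q + 3))
    (h : f q < f (q + 1) ↔ f (q + 2) < f (q + 3)) : Sq f q 2 := by
  have h' : f (q + 1) < f q ↔ f (q + 3) < f (q + 2) := by
    constructor
    · intro h3
      rcases lt_or_gt_of_ne h2 with h4 | h4
      · exact absurd (h.2 h4) (not_lt.2 h3.le)
      · exact h4
    · intro h3
      rcases lt_or_gt_of_ne h1 with h4 | h4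
      · exact absurd (h.1 h4) (not_lt.2 h3.le)
      · exact h4
  intro a ha b hb
  interval_cases a <;> interval_cases b
  · simp
  · simpa using h
  · simpa using h'
  · simp

section left

variable (m : ℕ) (hm : 7 ≤ m) (x : ℚ)

include hm

lemma cover0 (hx : x ≠ fw m 0) : ∃ l, 2 ≤ l ∧ l ≤ 8 ∧ Sq (ins (fw m) 0 x) 0 l := by
  have v0 : ins (fw m) 0 x 0 = x := ins_eq _ _ _
  have v1 : ins (fw m) 0 x 1 = 16 / 96 := by
    rw [ins_gt _ _ _ _ (by norm_num), fw_val m _ hm (by norm_num)]; norm_num [Gz]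
  have v2 : ins (fw m) 0 x 2 = -320 / 96 := by
    rw [ins_gt _ _ _ _ (by norm_num), fw_val m _ hm (by norm_num)]; norm_num [Gz]
  have v3 : ins (fw m) 0 x 3 = -224 / 96 := by
    rw [ins_gt _ _ _ _ (by norm_num), fw_val m _ hm (by norm_num)]; norm_num [Gz]
  have v4 : ins (fw m) 0 x 4 = 448 / 96 := by
    rw [ins_gt _ _ _ _ (by norm_num), fw_val m _ hm (by norm_num)]; norm_num [Gz]
  have v5 : ins (fw m) 0 x 5 = 416 / 96 := by
    rw [ins_gt _ _ _ _ (by norm_num), fw_val m _ hm (by norm_num)]; norm_num [Gz]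
  have v6 : ins (fw m) 0 x 6 = -160 / 96 := by
    rw [ins_gt _ _ _ _ (by norm_num), fw_val m _ hm (by norm_num)]; norm_num [Gz]
  have v7 : ins (fw m) 0 x 7 = -4 / 96 := by
    rw [ins_gt _ _ _ _ (by norm_num), fw_val m _ hm (by norm_num)]; norm_num [Gz]
  have hx0 : x ≠ 16 / 96 := by
    rw [fw_val m _ hm (by norm_num)] at hx; norm_num [Gz] at hx ⊢; exact hx
  rcases lt_or_gt_of_ne hx0 with h | h
  · refine ⟨2, le_rfl, by norm_num, ?_⟩
    intro a ha b hb
    interval_cases a <;> interval_cases b <;> norm_num [v0, v1, v2, v3] <;> linarith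
  · refine ⟨4, by norm_num, by norm_num, ?_⟩
    intro a ha b hb
    interval_cases a <;> interval_cases b <;> norm_num [v0, v1, v2, v3, v4, v5, v6, v7] <;>
      linarith

lemma cover1 (hx0' : x ≠ fw m 0) (hx1' : x ≠ fw m 1) (hx2' : x ≠ fw m 2) :
    ∃ i l, 2 ≤ l ∧ l ≤ 8 ∧ i ≤ 1 ∧ Sq (ins (fw m) 1 x) i l := by
  have v1 : ins (fw m) 1 x 1 = x := ins_eq _ _ _
  have v0 : ins (fw m) 1 x 0 = 16 / 96 := by
    rw [ins_lt _ _ _ _ (by norm_num), fw_val m _ hm (by norm_num)]; norm_num [Gz]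
  have v2 : ins (fw m) 1 x 2 = -320 / 96 := by
    rw [ins_gt _ _ _ _ (by norm_num), fw_val m _ hm (by norm_num)]; norm_num [Gz]
  have v3 : ins (fw m) 1 x 3 = -224 / 96 := by
    rw [ins_gt _ _ _ _ (by norm_num), fw_val m _ hm (by norm_num)]; norm_num [Gz]
  have v4 : ins (fw m) 1 x 4 = 448 / 96 := by
    rw [ins_gt _ _ _ _ (by norm_num), fw_val m _ hm (by norm_num)]; norm_num [Gz]
  have v5 : ins (fw m) 1 x 5 = 416 / 96 := by
    rw [ins_gt _ _ _ _ (by norm_num), fw_val m _ hm (by norm_num)]; norm_num [Gz]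
  have v6 : ins (fw m) 1 x 6 = -160 / 96 := by
    rw [ins_gt _ _ _ _ (by norm_num), fw_val m _ hm (by norm_num)]; norm_num [Gz]
  have v7 : ins (fw m) 1 x 7 = -4 / 96 := by
    rw [ins_gt _ _ _ _ (by norm_num), fw_val m _ hm (by norm_num)]; norm_num [Gz]
  have v8 : ins (fw m) 1 x 8 = 128 / 96 := by
    rw [ins_gt _ _ _ _ (by norm_num), fw_val m _ hm (by norm_num)]; norm_num [Gz]
  have v9 : ins (fw m) 1 x 9 = -8 / 96 := by
    rw [ins_gt _ _ _ _ (by norm_num), fw_val m _ hm (by norm_num)]; norm_num [Gz]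
  have v10 : ins (fw m) 1 x 10 = -64 / 96 := by
    rw [ins_gt _ _ _ _ (by norm_num), fw_val m _ hm (by norm_num)]; norm_num [Gz]
  have v11 : ins (fw m) 1 x 11 = -2 / 96 := by
    rw [ins_gt _ _ _ _ (by norm_num), fw_val m _ hm (by norm_num)]; norm_num [Gz]
  have v12 : ins (fw m) 1 x 12 = 352 / 96 := by
    rw [ins_gt _ _ _ _ (by norm_num), fw_val m _ hm (by norm_num)]; norm_num [Gz]
  have v13 : ins (fw m) 1 x 13 = 256 / 96 := by
    rw [ins_gt _ _ _ _ (by norm_num), fw_val m _ hm (by norm_num)]; norm_num [Gz]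
  have v14 : ins (fw m) 1 x 14 = -1 / 96 := by
    rw [ins_gt _ _ _ _ (by norm_num), fw_val m _ hm (by norm_num)]; norm_num [Gz]
  have v15 : ins (fw m) 1 x 15 = 63 / 256 := by
    rw [ins_gt _ _ _ _ (by norm_num)]; exact fw14 m hm
  have hx0 : x ≠ 16 / 96 := by
    rw [fw_val m _ hm (by norm_num)] at hx0'; norm_num [Gz] at hx0' ⊢; exact hx0'
  have hx1 : x ≠ -320 / 96 := by
    rw [fw_val m _ hm (by norm_num)] at hx1'; norm_num [Gz] at hx1' ⊢; exact hx1'
  have hx2 : x ≠ -224 / 96 := by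
    rw [fw_val m _ hm (by norm_num)] at hx2'; norm_num [Gz] at hx2' ⊢; exact hx2'
  rcases lt_or_gt_of_ne hx1 with h | h
  · -- `x` below `f 1`
    refine ⟨1, 2, le_rfl, by norm_num, le_rfl, ?_⟩
    intro a ha b hb
    interval_cases a <;> interval_cases b <;> norm_num [v1, v2, v3, v4] <;> linarith
  rcases lt_or_gt_of_ne hx2 with h' | h'
  · refine ⟨0, 8, by norm_num, by norm_num, by norm_num, ?_⟩
    intro a ha b hb
    interval_cases a <;> interval_cases b <;>
      norm_num [v0, v1, v2, v3, v4, v5, v6, v7, v8, v9, v10, v11, v12, v13, v14, v15] <;> linarith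
  rcases lt_or_gt_of_ne hx0 with h'' | h''
  · refine ⟨0, 4, by norm_num, by norm_num, by norm_num, ?_⟩
    intro a ha b hb
    interval_cases a <;> interval_cases b <;>
      norm_num [v0, v1, v2, v3, v4, v5, v6, v7] <;> linarith
  · refine ⟨0, 2, by norm_num, by norm_num, by norm_num, ?_⟩
    intro a ha b hb
    interval_cases a <;> interval_cases b <;> norm_num [v0, v1, v2, v3] <;> linarith

lemma cover2 (hx1' : x ≠ fw m 1) (hx2' : x ≠ fw m 2) :
    ∃ i l, 2 ≤ l ∧ l ≤ 8 ∧ i ≤ 1 ∧ Sq (ins (fw m) 2 x) i l := by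
  have v2 : ins (fw m) 2 x 2 = x := ins_eq _ _ _
  have v0 : ins (fw m) 2 x 0 = 16 / 96 := by
    rw [ins_lt _ _ _ _ (by norm_num), fw_val m _ hm (by norm_num)]; norm_num [Gz]
  have v1 : ins (fw m) 2 x 1 = -320 / 96 := by
    rw [ins_lt _ _ _ _ (by norm_num), fw_val m _ hm (by norm_num)]; norm_num [Gz]
  have v3 : ins (fw m) 2 x 3 = -224 / 96 := by
    rw [ins_gt _ _ _ _ (by norm_num), fw_val m _ hm (by norm_num)]; norm_num [Gz]
  have v4 : ins (fw m) 2 x 4 = 448 / 96 := by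
    rw [ins_gt _ _ _ _ (by norm_num), fw_val m _ hm (by norm_num)]; norm_num [Gz]
  have v5 : ins (fw m) 2 x 5 = 416 / 96 := by
    rw [ins_gt _ _ _ _ (by norm_num), fw_val m _ hm (by norm_num)]; norm_num [Gz]
  have v6 : ins (fw m) 2 x 6 = -160 / 96 := by
    rw [ins_gt _ _ _ _ (by norm_num), fw_val m _ hm (by norm_num)]; norm_num [Gz]
  have v7 : ins (fw m) 2 x 7 = -4 / 96 := by
    rw [ins_gt _ _ _ _ (by norm_num), fw_val m _ hm (by norm_num)]; norm_num [Gz]
  have v8 : ins (fw m) 2 x 8 = 128 / 96 := by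
    rw [ins_gt _ _ _ _ (by norm_num), fw_val m _ hm (by norm_num)]; norm_num [Gz]
  have v9 : ins (fw m) 2 x 9 = -8 / 96 := by
    rw [ins_gt _ _ _ _ (by norm_num), fw_val m _ hm (by norm_num)]; norm_num [Gz]
  have v10 : ins (fw m) 2 x 10 = -64 / 96 := by
    rw [ins_gt _ _ _ _ (by norm_num), fw_val m _ hm (by norm_num)]; norm_num [Gz]
  have v11 : ins (fw m) 2 x 11 = -2 / 96 := by
    rw [ins_gt _ _ _ _ (by norm_num), fw_val m _ hm (by norm_num)]; norm_num [Gz]
  have v12 : ins (fw m) 2 x 12 = 352 / 96 := by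
    rw [ins_gt _ _ _ _ (by norm_num), fw_val m _ hm (by norm_num)]; norm_num [Gz]
  have v13 : ins (fw m) 2 x 13 = 256 / 96 := by
    rw [ins_gt _ _ _ _ (by norm_num), fw_val m _ hm (by norm_num)]; norm_num [Gz]
  have v14 : ins (fw m) 2 x 14 = -1 / 96 := by
    rw [ins_gt _ _ _ _ (by norm_num), fw_val m _ hm (by norm_num)]; norm_num [Gz]
  have v15 : ins (fw m) 2 x 15 = 63 / 256 := by
    rw [ins_gt _ _ _ _ (by norm_num)]; exact fw14 m hm
  have hx1 : x ≠ -320 / 96 := by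
    rw [fw_val m _ hm (by norm_num)] at hx1'; norm_num [Gz] at hx1' ⊢; exact hx1'
  have hx2 : x ≠ -224 / 96 := by
    rw [fw_val m _ hm (by norm_num)] at hx2'; norm_num [Gz] at hx2' ⊢; exact hx2'
  rcases lt_or_gt_of_ne hx1 with h | h
  · refine ⟨0, 8, by norm_num, by norm_num, by norm_num, ?_⟩
    intro a ha b hb
    interval_cases a <;> interval_cases b <;>
      norm_num [v0, v1, v2, v3, v4, v5, v6, v7, v8, v9, v10, v11, v12, v13, v14, v15] <;> linarith
  rcases lt_or_gt_of_ne hx2 with h' | h'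
  · refine ⟨1, 2, le_rfl, by norm_num, le_rfl, ?_⟩
    intro a ha b hb
    interval_cases a <;> interval_cases b <;> norm_num [v1, v2, v3, v4] <;> linarith
  · refine ⟨0, 2, by norm_num, by norm_num, by norm_num, ?_⟩
    intro a ha b hb
    interval_cases a <;> interval_cases b <;> norm_num [v0, v1, v2, v3] <;> linarith

end left

/-- the shape in terms of `fw` -/
lemma fw_shape (m i : ℕ) (hm : 7 ≤ m) (hi : i + 13 ≤ 2 ^ m) :
    (fw m i < fw m (i + 1) ↔ (i % 4 = 1 ∨ i % 4 = 2)) := by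
  have := shape m (i + 6) hm (by omega) (by omega)
  unfold fw
  rw [show i + 1 + 6 = i + 6 + 1 by ring, this]
  omega

lemma fw_ne (m i j : ℕ) (hm : 7 ≤ m) (hi : i + 12 ≤ 2 ^ m) (hj : j + 12 ≤ 2 ^ m) (h : i ≠ j) :
    fw m i ≠ fw m j := by
  intro he
  have := W_inj m (i + 6) (j + 6) hm (by omega) (by omega) (by omega) (by omega) he
  omega

/-- interior insertions -/
lemma cover_mid (m p : ℕ) (x : ℚ) (hm : 7 ≤ m) (hp : 3 ≤ p) (hpn : p + 14 ≤ 2 ^ m)
    (hx : ∀ i, i + 12 ≤ 2 ^ m → x ≠ fw m i) :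
    ∃ i, i + 3 ≤ p + 3 ∧ Sq (ins (fw m) p x) i 2 := by
  set y := ins (fw m) p x with hy
  have y0 : y (p - 3) = fw m (p - 3) := ins_lt _ _ _ _ (by omega)
  have y1 : y (p - 2) = fw m (p - 2) := ins_lt _ _ _ _ (by omega)
  have y2 : y (p - 1) = fw m (p - 1) := ins_lt _ _ _ _ (by omega)
  have y3 : y p = x := ins_eq _ _ _
  have y4 : y (p + 1) = fw m p := by rw [hy, ins_gt _ _ _ _ (by omega)]; rfl
  have y5 : y (p + 2) = fw m (p + 1) := by rw [hy, ins_gt _ _ _ _ (by omega)]; rfl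
  have y6 : y (p + 3) = fw m (p + 2) := by rw [hy, ins_gt _ _ _ _ (by omega)]; rfl
  have s0 := fw_shape m (p - 3) hm (by omega)
  have s1 := fw_shape m (p - 2) hm (by omega)
  have s3 := fw_shape m p hm (by omega)
  have s4 := fw_shape m (p + 1) hm (by omega)
  rw [show p - 3 + 1 = p - 2 by omega] at s0
  rw [show p - 2 + 1 = p - 1 by omega] at s1
  have n0 := fw_ne m (p - 3) (p - 2) hm (by omega) (by omega) (by omega)
  have n1 := fw_ne m (p - 2) (p - 1) hm (by omega) (by omega) (by omega)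
  have n3 := fw_ne m p (p + 1) hm (by omega) (by omega) (by omega)
  have n4 := fw_ne m (p + 1) (p + 2) hm (by omega) (by omega) (by omega)
  have x1 := hx (p - 1) (by omega)
  have x2 := hx p (by omega)
  by_contra hcon
  push Not at hcon
  have c0 : ¬ (y (p - 3) < y (p - 2) ↔ y (p - 1) < y p) := by
    intro h
    refine hcon (p - 3) (by omega) (Sq_two y (p - 3) ?_ ?_ ?_)
    · rw [show p - 3 + 1 = p - 2 by omega, y0, y1]; exact n0
    · rw [show p - 3 + 2 = p - 1 by omega, show p - 3 + 3 = p by omega, y2, y3]; exact x1.symm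
    · rw [show p - 3 + 1 = p - 2 by omega, show p - 3 + 2 = p - 1 by omega,
        show p - 3 + 3 = p by omega]; exact h
  have c1 : ¬ (y (p - 2) < y (p - 1) ↔ y p < y (p + 1)) := by
    intro h
    refine hcon (p - 2) (by omega) (Sq_two y (p - 2) ?_ ?_ ?_)
    · rw [show p - 2 + 1 = p - 1 by omega, y1, y2]; exact n1
    · rw [show p - 2 + 2 = p by omega, show p - 2 + 3 = p + 1 by omega, y3, y4]; exact x2
    · rw [show p - 2 + 1 = p - 1 by omega, show p - 2 + 2 = p by omega,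
        show p - 2 + 3 = p + 1 by omega]; exact h
  have c2 : ¬ (y (p - 1) < y p ↔ y (p + 1) < y (p + 2)) := by
    intro h
    refine hcon (p - 1) (by omega) (Sq_two y (p - 1) ?_ ?_ ?_)
    · rw [show p - 1 + 1 = p by omega, y2, y3]; exact x1.symm
    · rw [show p - 1 + 2 = p + 1 by omega, show p - 1 + 3 = p + 2 by omega, y4, y5]; exact n3
    · rw [show p - 1 + 1 = p by omega, show p - 1 + 2 = p + 1 by omega,
        show p - 1 + 3 = p + 2 by omega]; exact h
  have c3 : ¬ (y p < y (p + 1) ↔ y (p + 2) < y (p + 3)) := by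
    intro h
    refine hcon p (by omega) (Sq_two y p ?_ ?_ ?_)
    · rw [y3, y4]; exact x2
    · rw [y5, y6]; exact n4
    · exact h
  rw [y0, y1, s0] at c0
  rw [y1, y2, s1] at c1
  rw [y4, y5, s3] at c2
  rw [y5, y6, s4] at c3
  generalize (y (p - 1) < y p) = A at c0 c2
  generalize (y p < y (p + 1)) = B at c1 c3
  by_cases hA : A <;> by_cases hB : B <;> simp only [hA, hB, iff_true, iff_false, true_iff,
    false_iff, not_not] at c0 c1 c2 c3 <;> omega

/-- all insertions -/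
theorem cover (m p : ℕ) (x : ℚ) (hm : 7 ≤ m) (hpn : p + 11 ≤ 2 ^ m)
    (hx : ∀ i, i + 12 ≤ 2 ^ m → x ≠ fw m i) :
    ∃ i l, 2 ≤ l ∧ i + 2 * l + 10 ≤ 2 ^ m ∧ Sq (ins (fw m) p x) i l := by
  have h64 := pow_ge m hm
  have h2 := two_pow_pred m (by omega)
  -- left half
  have left : ∀ (p : ℕ) (x : ℚ), p ≤ 2 → (∀ i, i + 12 ≤ 2 ^ m → x ≠ fw m i) →
      ∃ i l, 2 ≤ l ∧ i + 2 * l + 10 ≤ 2 ^ m ∧ Sq (ins (fw m) p x) i l := by
    intro p x hp hx
    interval_cases p
    · obtain ⟨l, h1, h3, h4⟩ := cover0 m hm x (hx 0 (by omega))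
      exact ⟨0, l, h1, by omega, h4⟩
    · obtain ⟨i, l, h1, h3, h5, h4⟩ := cover1 m hm x (hx 0 (by omega)) (hx 1 (by omega))
        (hx 2 (by omega))
      exact ⟨i, l, h1, by omega, h4⟩
    · obtain ⟨i, l, h1, h3, h5, h4⟩ := cover2 m hm x (hx 1 (by omega)) (hx 2 (by omega))
      exact ⟨i, l, h1, by omega, h4⟩
  by_cases hp2 : p ≤ 2
  · exact left p x hp2 hx
  by_cases hp3 : p + 14 ≤ 2 ^ m
  · obtain ⟨i, h1, h3⟩ := cover_mid m p x hm (by omega) hp3 hx
    exact ⟨i, 2, le_rfl, by omega, h3⟩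
  · -- mirror
    have hanti : ∀ i, i + 12 ≤ 2 ^ m → fw m (2 ^ m - 12 - i) = - fw m i := by
      intro i hi
      unfold fw
      rw [← W_anti m (i + 6) (by omega) (by omega)]
      congr 1
      omega
    obtain ⟨i, l, h1, h3, h4⟩ := left (2 ^ m - 11 - p) (-x) (by omega) (by
      intro i hi he
      apply hx (2 ^ m - 12 - i) (by omega)
      rw [hanti i hi, ← he, neg_neg])
    have hrel : ∀ k, k + 11 ≤ 2 ^ m →
        ins (fw m) (2 ^ m - 11 - p) (-x) k = - ins (fw m) p x (2 ^ m - 11 - k) := by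
      intro k hk
      rcases lt_trichotomy k (2 ^ m - 11 - p) with h | h | h
      · rw [ins_lt _ _ _ _ h, ins_gt _ _ _ _ (by omega), ← hanti _ (by omega)]
        congr 1
        omega
      · have e : 2 ^ m - 11 - k = p := by omega
        rw [e, ins_eq, h, ins_eq]
      · rw [ins_gt _ _ _ _ h, ins_lt _ _ _ _ (by omega), ← hanti _ (by omega)]
        congr 1
        omega
    refine ⟨2 ^ m - 10 - i - 2 * l, l, h1, by omega, ?_⟩
    intro a ha b hb
    have h5 := h4 (l - 1 - b) (by omega) (l - 1 - a) (by omega)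
    rw [hrel _ (by omega), hrel _ (by omega), hrel _ (by omega), hrel _ (by omega),
      neg_lt_neg_iff, neg_lt_neg_iff] at h5
    rw [show 2 ^ m - 10 - i - 2 * l + a = 2 ^ m - 11 - (i + l + (l - 1 - a)) by omega,
      show 2 ^ m - 10 - i - 2 * l + b = 2 ^ m - 11 - (i + l + (l - 1 - b)) by omega,
      show 2 ^ m - 10 - i - 2 * l + l + a = 2 ^ m - 11 - (i + (l - 1 - a)) by omega,
      show 2 ^ m - 10 - i - 2 * l + l + b = 2 ^ m - 11 - (i + (l - 1 - b)) by omega]
    exact h5.symm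

end Pool.Agent.Y349.SF
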